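import Pool.Agent.N431.PK.Stm
import Pool.Agent.H32CE.TMAG
import Pool.Agent.H32CE.TGRL
import Pool.Agent.H32CE.TINJ
import Pool.Agent.H32CE.TLYN
import Pool.Agent.H32CE.TBAS
import Pool.Agent.H32CE.TGENP
import Pool.Agent.Helper111.EN.Resid

/-!
# Free groups modulo a term of the lower central series are residually finite-`p` (helper433)

For the project PK (helper431, MP_f3dc04_al). Magnus' theorem (`H32CE`) and the residual properties
of torsion-free nilpotent groups (`Helper111.EN.resid`) are in the starting library.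
-/

set_option autoImplicit false

namespace Pool.Agent.N433.PK

open Pool.Agent.R684.PN (lc SameLCQ ResNil S_RES)
open Pool.Agent.N431.PK (RFp S_RPF)

section tf

open Pool.Agent.H32CE

theorem mag_thm : S_MAG := t_MAG t_GRL (t_INJ t_LYN) t_BAS

/-- the quotients by the terms of the lower central series are torsion-free -/
theorem root_mem (r n m : ℕ) (hm : 1 ≤ m) (x : FreeGroup (Fin r))
    (h : x ^ m ∈ lc (FreeGroup (Fin r)) n) : x ∈ lc (FreeGroup (Fin r)) n := by
  have h1 : D (n + 1) (x ^ m) := (mag_thm r n (x ^ m)).2 h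
  have key : ∀ k, k ≤ n + 1 → D k x := by
    intro k
    induction k with
    | zero =>
      intro _ i _ hi
      omega
    | succ k ih =>
      intro hk
      have hDk := ih (by omega)
      intro i h1i hi
      rcases Nat.lt_succ_iff_lt_or_eq.1 hi with hlt | heq
      · exact hDk i h1i hlt
      · subst heq
        have h2 := (TGENP.pow_nat t_BAS h1i hDk m).2
        have h3 : cf i (x ^ m) = 0 := h1 i h1i (by omega)
        rw [h3] at h2
        have hm' : (m : ℝ) ≠ 0 := by
          have : m ≠ 0 := by omega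
          exact_mod_cast this
        exact (smul_eq_zero.1 h2.symm).resolve_left hm'
  exact (mag_thm r n x).1 (key (n + 1) le_rfl)

end tf

/-- homomorphisms map the terms of the lower central series into each other -/
theorem map_lc {G H : Type} [Group G] [Group H] (f : G →* H) (n : ℕ) {x : G} (hx : x ∈ lc G n) :
    f x ∈ lc H n := by
  have h1 : f x ∈ ((⊤ : Subgroup G).lowerCentralSeries n).map f := Subgroup.mem_map_of_mem f hx
  rw [Subgroup.map_lowerCentralSeries] at h1
  exact Subgroup.lowerCentralSeries_mono n le_top h1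

theorem nil_quot (G : Type) [Group G] (n : ℕ) : Group.IsNilpotent (G ⧸ lc G n) := by
  rw [Subgroup.nilpotent_iff_lowerCentralSeries]
  refine ⟨n, ?_⟩
  have h1 := Subgroup.map_lowerCentralSeries (⊤ : Subgroup G) (QuotientGroup.mk' (lc G n)) n
  have h2 : (⊤ : Subgroup G).map (QuotientGroup.mk' (lc G n)) = ⊤ := by
    rw [← MonoidHom.range_eq_map, MonoidHom.range_eq_top]
    exact QuotientGroup.mk'_surjective _
  rw [h2] at h1
  rw [← h1]
  exact QuotientGroup.map_mk'_self _

/-- finitely many generators -/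
theorem res_fin (r p : ℕ) [Fact p.Prime] (n : ℕ) (x : FreeGroup (Fin r))
    (hx : x ∉ lc (FreeGroup (Fin r)) n) :
    ∃ (G : Type) (_ : Group G) (_ : Finite G) (f : FreeGroup (Fin r) →* G),
      IsPGroup p G ∧ (∀ y ∈ lc (FreeGroup (Fin r)) n, f y = 1) ∧ f x ≠ 1 := by
  have hp : p.Prime := Fact.out
  have hnil := nil_quot (FreeGroup (Fin r)) n
  have hfg : Group.FG (FreeGroup (Fin r) ⧸ lc (FreeGroup (Fin r)) n) := QuotientGroup.fg _
  have hw : (QuotientGroup.mk' (lc (FreeGroup (Fin r)) n)) x ≠ 1 := by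
    intro h
    rw [← MonoidHom.mem_ker, QuotientGroup.ker_mk'] at h
    exact hx h
  obtain ⟨q, hq, hqπ, N, hN, hwN, hfin, hpg⟩ := Pool.Agent.Helper111.EN.resid
    (K := FreeGroup (Fin r) ⧸ lc (FreeGroup (Fin r)) n) {q : ℕ | q.Prime ∧ q ≠ p}
    (fun q hq => hq.1) p hp (fun h => h.2 rfl) (by
      rintro q ⟨hq, -⟩ y hy
      obtain ⟨y, rfl⟩ := QuotientGroup.mk'_surjective _ y
      rw [← map_pow, ← MonoidHom.mem_ker, QuotientGroup.ker_mk'] at hy
      rw [← MonoidHom.mem_ker, QuotientGroup.ker_mk']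
      exact root_mem r n q hq.one_lt.le y hy)
    ((QuotientGroup.mk' (lc (FreeGroup (Fin r)) n)) x) hw
  have hqp : q = p := by
    by_contra hne
    exact hqπ ⟨hq, hne⟩
  subst hqp
  refine ⟨(FreeGroup (Fin r) ⧸ lc (FreeGroup (Fin r)) n) ⧸ N, inferInstance, hfin,
    (QuotientGroup.mk' N).comp (QuotientGroup.mk' (lc (FreeGroup (Fin r)) n)), hpg, ?_, ?_⟩
  · intro y hy
    have h1 : (QuotientGroup.mk' (lc (FreeGroup (Fin r)) n)) y = 1 := by
      rw [← MonoidHom.mem_ker, QuotientGroup.ker_mk']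
      exact hy
    rw [MonoidHom.comp_apply, h1, map_one]
  · intro h
    rw [MonoidHom.comp_apply, ← MonoidHom.mem_ker, QuotientGroup.ker_mk'] at h
    exact hwN h

/-- the support of an element -/
theorem supp {X : Type} [DecidableEq X] (x : FreeGroup X) : ∃ Y : Finset X,
    ∀ g : FreeGroup X →* FreeGroup X, (∀ y ∈ Y, g (FreeGroup.of y) = FreeGroup.of y) →
      g x = x := by
  induction x using FreeGroup.induction_on with
  | C1 => exact ⟨∅, fun g _ => map_one g⟩
  | of y => exact ⟨{y}, fun g hg => hg y (Finset.mem_singleton_self y)⟩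
  | inv_of y h =>
    obtain ⟨Y, hY⟩ := h
    exact ⟨Y, fun g hg => by rw [map_inv, hY g hg]⟩
  | mul a b ha hb =>
    obtain ⟨Y, hY⟩ := ha
    obtain ⟨Z, hZ⟩ := hb
    refine ⟨Y ∪ Z, fun g hg => ?_⟩
    rw [map_mul, hY g fun y hy => hg y (Finset.mem_union_left _ hy),
      hZ g fun y hy => hg y (Finset.mem_union_right _ hy)]

theorem t_RES : S_RES := by
  classical
  intro X p _ n x hx
  obtain ⟨Y, hY⟩ := supp x
  let e := Y.equivFin
  let ρ : FreeGroup X →* FreeGroup (Fin Y.card) :=
    FreeGroup.lift fun y => if h : y ∈ Y then FreeGroup.of (e ⟨y, h⟩) else 1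
  let i : FreeGroup (Fin Y.card) →* FreeGroup X :=
    FreeGroup.lift fun j => FreeGroup.of ((e.symm j : Y) : X)
  have h1 : (i.comp ρ) x = x := by
    apply hY
    intro y hy
    simp only [MonoidHom.comp_apply, ρ, i, FreeGroup.lift_apply_of, dif_pos hy,
      Equiv.symm_apply_apply]
  have h2 : ρ x ∉ lc (FreeGroup (Fin Y.card)) n := by
    intro h
    apply hx
    rw [← h1]
    exact map_lc i n h
  obtain ⟨G, hG, hfin, f, hp, hf, hfx⟩ := res_fin Y.card p n (ρ x) h2
  exact ⟨G, hG, hfin, f.comp ρ, hp, fun y hy => hf _ (map_lc ρ n hy), hfx⟩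

theorem t_RPF : S_RPF := by
  intro hRES P X _ hPX hres p _ x hx
  obtain ⟨n, hn⟩ : ∃ n : ℕ, x ∉ lc P n := by
    by_contra hcon
    push Not at hcon
    exact hx (hres x hcon)
  obtain ⟨e⟩ := hPX n
  obtain ⟨y, hy⟩ := QuotientGroup.mk'_surjective (lc (FreeGroup X) n)
    (e ((QuotientGroup.mk' (lc P n)) x))
  have hyn : y ∉ lc (FreeGroup X) n := by
    intro h
    apply hn
    have h1 : (QuotientGroup.mk' (lc (FreeGroup X) n)) y = 1 := by
      rw [← MonoidHom.mem_ker, QuotientGroup.ker_mk']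
      exact h
    rw [hy] at h1
    have h2 : (QuotientGroup.mk' (lc P n)) x = 1 := by
      rw [← e.map_one] at h1
      exact e.injective h1
    rw [← MonoidHom.mem_ker, QuotientGroup.ker_mk'] at h2
    exact h2
  obtain ⟨G, hG, hfin, f, hp, hf, hfx⟩ := hRES X p n y hyn
  refine ⟨G, hG, hfin, ((QuotientGroup.lift (lc (FreeGroup X) n) f hf).comp
    e.toMonoidHom).comp (QuotientGroup.mk' (lc P n)), hp, ?_⟩
  have h3 : (((QuotientGroup.lift (lc (FreeGroup X) n) f hf).comp
      e.toMonoidHom).comp (QuotientGroup.mk' (lc P n))) x = f y := by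
    have h4 : (((QuotientGroup.lift (lc (FreeGroup X) n) f hf).comp
        e.toMonoidHom).comp (QuotientGroup.mk' (lc P n))) x =
        QuotientGroup.lift (lc (FreeGroup X) n) f hf (e ((QuotientGroup.mk' (lc P n)) x)) := rfl
    rw [h4, ← hy]
    rfl
  rw [h3]
  exact hfx

end Pool.Agent.N433.PK
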